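import Mathlib
set_option autoImplicit false
namespace Pool.Agent.Results.MP_8301b4_gt.Counter
open Set Topology Filter
open Ordinal hiding univ
open Cardinal hiding univ

def MetaLindelof (Y : Type) [TopologicalSpace Y] : Prop :=
  ∀ 𝒰 : Set (Set Y), (∀ U ∈ 𝒰, IsOpen U) → ⋃₀ 𝒰 = univ →
    ∃ 𝒱 : Set (Set Y), (∀ V ∈ 𝒱, IsOpen V) ∧ ⋃₀ 𝒱 = univ ∧ (∀ V ∈ 𝒱, ∃ U ∈ 𝒰, V ⊆ U) ∧
      ∀ y, {V ∈ 𝒱 | y ∈ V}.Countable

def Poset {X : Type} (𝒱 : Set (Set X)) : Set (Set X) :=
  {p | p.Finite ∧ ∀ x ∈ p, ⋃₀ {V ∈ 𝒱 | x ∈ V} ∩ p = {x}}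

abbrev W : Type := (ℵ_ 1).ord.ToType

noncomputable def rk (a : W) : Ordinal.{0} := (ToType.mk.symm a).1

lemma rk_lt (a : W) : rk a < ω_ 1 := by
  rw [← ord_aleph]
  exact (ToType.mk.symm a).2

lemma rk_surj {α : Ordinal.{0}} (h : α < ω_ 1) : ∃ a, rk a = α :=
  ⟨ToType.mk ⟨α, by rwa [mem_Iio, ord_aleph]⟩, by simp [rk]⟩

lemma mkW : #W = ℵ_ 1 := mk_ord_toType _

instance : Uncountable W := by
  rw [← aleph0_lt_mk_iff, mkW]; exact aleph0_lt_aleph_one

structure T where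
  h : W × W
  t : List (W × W)
  ok : (h :: t).Pairwise fun a b => rk a.1 < rk b.1

def T.l (s : T) : List (W × W) := s.h :: s.t

lemma l_inj : Function.Injective T.l := by
  rintro ⟨a, b, c⟩ ⟨d, e, f⟩ h
  simp only [T.l, List.cons.injEq] at h
  obtain ⟨rfl, rfl⟩ := h
  rfl

def cone (s : T) : Set T := {x | s.l <:+ x.l}

lemma fin_suf (x : T) : {s | x ∈ cone s}.Finite := by
  refine Finite.preimage l_inj.injOn (s := {l | l <:+ x.l}) ?_
  refine (x.l.tails.finite_toSet).subset fun l hl => ?_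
  exact (List.mem_tails _ _).2 hl

def DT : Type := T
instance : TopologicalSpace DT := ⊥
instance : DiscreteTopology DT := ⟨rfl⟩

open Classical in
noncomputable def ind (x : T) : OnePoint DT → ℝ := fun k =>
  k.elim 0 fun s : T => if x ∈ cone s then 1 else 0

lemma ind_cont (x : T) : Continuous (ind x) := by
  rw [OnePoint.continuous_iff_from_discrete]
  refine tendsto_const_nhds.congr' ?_
  filter_upwards [(fin_suf x).compl_mem_cofinite] with s hs
  simp only [ind, OnePoint.elim_infty, OnePoint.elim_some]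
  exact (if_neg hs).symm

noncomputable instance : TopologicalSpace T := .induced ind inferInstance

lemma self_mem (x : T) : x ∈ cone x := List.suffix_refl _

lemma ind_some (x s : T) : ind x (OnePoint.some (s : DT)) = 1 ↔ x ∈ cone s := by
  simp only [ind, OnePoint.elim_some]
  split_ifs with h <;> simp [h]

lemma ind_emb : IsEmbedding ind := by
  refine ⟨⟨rfl⟩, fun x y h => l_inj ?_⟩
  have h1 : y ∈ cone x := by rw [← ind_some, ← h, ind_some]; exact self_mem x
  have h2 : x ∈ cone y := by rw [← ind_some, h, ind_some]; exact self_mem y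
  exact h1.sublist.antisymm h2.sublist

lemma cone_open (s : T) : IsOpen (cone s) := by
  have : cone s = (fun x => ind x (OnePoint.some (s : DT))) ⁻¹' Ioi 0 := by
    ext x
    simp only [ind, OnePoint.elim_some, mem_preimage, mem_Ioi]
    split_ifs with h <;> simp [h]
  rw [this]
  exact isOpen_Ioi.preimage ((continuous_apply _).comp ind_emb.continuous)

lemma cone_lt {s x : T} (h : x ∈ cone s) (hne : x ≠ s) : rk x.h.1 < rk s.h.1 := by
  have h1 : s.l <:+ x.t := by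
    rcases List.suffix_cons_iff.1 h with h | h
    · exact absurd (l_inj h).symm hne
    · exact h
  exact (List.pairwise_cons.1 x.ok).1 _ (h1.subset List.mem_cons_self)

def child (s : T) (a : W) (h : rk a < rk s.h.1) (ξ : W) : T :=
  ⟨(a, ξ), s.l, List.pairwise_cons.2 ⟨fun b hb => by
    rcases List.mem_cons.1 hb with rfl | hb
    · exact h
    · exact h.trans ((List.pairwise_cons.1 s.ok).1 _ hb), s.ok⟩⟩

lemma child_inj (s : T) (a : W) (h : rk a < rk s.h.1) : Function.Injective (child s a h) :=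
  fun _ _ h => congrArg (fun x : T => x.h.2) h

lemma child_tendsto (s : T) (a : W) (h : rk a < rk s.h.1) :
    Tendsto (child s a h) cofinite (𝓝 s) := by
  rw [ind_emb.tendsto_nhds_iff, tendsto_pi_nhds]
  intro k
  refine tendsto_const_nhds.congr' ?_
  induction k using OnePoint.rec with
  | infty => exact .of_forall fun _ => rfl
  | coe t =>
    have : {ξ | child s a h ξ = t}.Finite :=
      (finite_singleton (t : T)).preimage (child_inj s a h).injOn
    filter_upwards [this.compl_mem_cofinite] with ξ hξ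
    have : s ∈ cone t ↔ child s a h ξ ∈ cone t :=
      ⟨fun h => h.trans (List.suffix_cons _ _), fun h =>
        (List.suffix_cons_iff.1 h).resolve_left fun h => hξ (l_inj h).symm⟩
    classical
    exact if_congr this rfl rfl

def D (α : Ordinal.{0}) : Set T := {s | α ≤ rk s.h.1}

lemma D_succ (α : Ordinal.{0}) : D (α + 1) = {x ∈ D α | AccPt x (𝓟 (D α))} := by
  ext x
  simp only [D, mem_ofPred_eq, Order.add_one_le_iff]
  constructor
  · intro h
    obtain ⟨a, rfl⟩ := rk_surj (h.trans (rk_lt _))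
    refine ⟨h.le, accPt_principal_iff_clusterPt.2 (mem_closure_iff_clusterPt.1 ?_)⟩
    refine mem_closure_of_tendsto (child_tendsto x a h) (.of_forall fun ξ => ⟨le_refl (rk a), ?_⟩)
    intro h'
    exact h.ne (congrArg (fun x : T => rk x.h.1) h')
  · rintro ⟨-, h⟩
    obtain ⟨y, ⟨h1, h2⟩, h3⟩ := accPt_iff_nhds.1 h _ ((cone_open x).mem_nhds (self_mem x))
    exact lt_of_le_of_lt h2 (cone_lt h1 h3)

lemma lev {α : Ordinal.{0}} {x : T} : x ∈ D α \ D (α + 1) ↔ rk x.h.1 = α := by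
  simp only [D, mem_diff, mem_ofPred_eq, Order.add_one_le_iff, not_lt]
  exact ⟨fun h => h.2.antisymm h.1, fun h => ⟨h.ge, h.le⟩⟩

def pt (a ξ : W) : T := ⟨(a, ξ), [], by simp⟩

theorem result : ∃ (X : Type) (_ : TopologicalSpace X), T35Space X ∧
    (∃ (K : Type) (_ : TopologicalSpace K), CompactSpace K ∧ T2Space K ∧
      ∃ e : X → C(K, ℝ), IsEmbedding fun x => (e x : K → ℝ)) ∧
    (∀ Y : Set X, MetaLindelof Y) ∧ #X = ℵ_ 1 ∧
    ∃ D : Ordinal.{0} → Set X, D 0 = univ ∧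
      (∀ α, D (α + 1) = {x ∈ D α | AccPt x (𝓟 (D α))}) ∧
      (∀ l, Order.IsSuccLimit l → D l = ⋂ α < l, D α) ∧
      D (ω_ 1) = ∅ ∧ (∀ α < ω_ 1, (D α).Nonempty) ∧
      ∃ (U : X → Set X) (𝒱 : Set (Set X)), (∀ x, IsOpen (U x)) ∧
        (∀ x α, x ∈ D α \ D (α + 1) → U x ∩ (D α \ D (α + 1)) = {x}) ∧
        (∀ V ∈ 𝒱, IsOpen V) ∧ ⋃₀ 𝒱 = univ ∧ (∀ V ∈ 𝒱, ∃ x, V ⊆ U x) ∧
        (∀ x, {V ∈ 𝒱 | x ∈ V}.Countable) ∧
        ∃ A ⊆ Poset 𝒱, ¬ A.Countable ∧
          A.Pairwise fun p q => ¬ ∃ r ∈ Poset 𝒱, p ⊆ r ∧ q ⊆ r := by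
  obtain ⟨a0, h0⟩ := rk_surj (omega_pos 1)
  obtain ⟨a1, h1⟩ := rk_surj (one_lt_omega0.trans omega0_lt_omega_one)
  refine ⟨T, inferInstance, ind_emb.t35Space, ⟨OnePoint DT, inferInstance, inferInstance,
    inferInstance, fun x => ⟨ind x, ind_cont x⟩, ind_emb⟩, fun Y 𝒰 hU hc => ?_, ?_, D, ?_, D_succ,
    fun l hl => ?_, ?_, fun α hα => ?_, cone, range cone, cone_open, fun x α hx => ?_, ?_, ?_, ?_,
    fun x => ?_, ?_⟩
  · have : ∀ y : Y, ∃ U ∈ 𝒰, y ∈ U := fun y => mem_sUnion.1 (hc ▸ mem_univ y)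
    choose u hu hy using this
    refine ⟨range fun y => u y ∩ (↑) ⁻¹' cone y, ?_, ?_, ?_, fun z => ?_⟩
    · rintro _ ⟨y, rfl⟩
      exact (hU _ (hu y)).inter ((cone_open _).preimage continuous_subtype_val)
    · exact eq_univ_of_forall fun y => ⟨_, ⟨y, rfl⟩, hy y, self_mem _⟩
    · rintro _ ⟨y, rfl⟩
      exact ⟨_, hu y, inter_subset_left⟩
    · refine ((((fin_suf z).preimage Subtype.val_injective.injOn).image
        fun y : Y => u y ∩ (↑) ⁻¹' cone y).countable).mono ?_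
      rintro _ ⟨⟨y, rfl⟩, h⟩
      exact ⟨y, h.2, rfl⟩
  · apply le_antisymm
    · refine (mk_le_of_injective l_inj).trans ?_
      rw [mk_list_eq_mk, mk_prod, mkW]
      simp
    · rw [← mkW]
      exact mk_le_of_injective (f := pt a0) fun _ _ h => congrArg (fun x : T => x.h.2) h
  · exact eq_univ_of_forall fun x => (zero_le : 0 ≤ rk x.h.1)
  · ext x
    simp only [D, mem_ofPred_eq, mem_iInter]
    refine ⟨fun h α hα => hα.le.trans h, fun h => by_contra fun h' => ?_⟩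
    exact (Order.lt_succ _).not_ge (h _ (hl.succ_lt (not_le.1 h')))
  · exact eq_empty_of_forall_notMem fun x h => (rk_lt _).not_ge h
  · obtain ⟨a, rfl⟩ := rk_surj hα
    exact ⟨pt a a, le_refl (rk a)⟩
  · ext y
    rw [mem_inter_iff, lev, mem_singleton_iff, ← lev.1 hx]
    exact ⟨fun h => by_contra fun h' => (cone_lt h.1 h').ne h.2, fun h => h ▸ ⟨self_mem _, rfl⟩⟩
  · rintro _ ⟨x, rfl⟩
    exact cone_open x
  · exact eq_univ_of_forall fun y => ⟨_, ⟨y, rfl⟩, self_mem _⟩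
  · rintro _ ⟨x, rfl⟩
    exact ⟨x, Subset.rfl⟩
  · refine (((fin_suf x).image cone).countable).mono ?_
    rintro _ ⟨⟨y, rfl⟩, h⟩
    exact ⟨y, h, rfl⟩
  · have h : rk a0 < rk (pt a1 a1).h.1 := by
      change rk a0 < rk a1
      rw [h0, h1]; exact zero_lt_one
    have hm (ξ : W) : child _ a0 h ξ ∈ cone (pt a1 a1) := List.suffix_cons _ _
    refine ⟨range fun ξ => {child _ a0 h ξ}, ?_, fun hc => ?_, ?_⟩
    · rintro _ ⟨ξ, rfl⟩
      refine ⟨finite_singleton _, ?_⟩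
      rintro _ rfl
      exact inter_eq_right.2 (singleton_subset_iff.2 ⟨_, ⟨⟨_, rfl⟩, self_mem _⟩, self_mem _⟩)
    · refine not_countable_univ (α := W) ?_
      rw [← image_univ] at hc
      exact countable_of_injective_of_countable_image
        (singleton_injective.comp (child_inj _ a0 h)).injOn hc
    · rintro _ ⟨ξ, rfl⟩ _ ⟨η, rfl⟩ hne ⟨r, hr, h2, h3⟩
      have := hr.2 _ (h2 rfl)
      have h4 : child _ a0 h η ∈ ⋃₀ {V ∈ range cone | child _ a0 h ξ ∈ V} ∩ r :=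
        ⟨⟨_, ⟨⟨_, rfl⟩, hm ξ⟩, hm η⟩, h3 rfl⟩
      rw [this] at h4
      exact hne (congrArg singleton h4.symm)

end Pool.Agent.Results.MP_8301b4_gt.Counter
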